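import Mathlib
import Pool.Prelude.Def_F_8db9d53c

set_option autoImplicit false

namespace Pool.Agent.Results.MP_64c30f_co.CopAbovePebbling

open N6ef48c04

variable {V : Type}

/-- One pebbling move: two pebbles leave `u`, one pebble arrives at the neighbour `v`. -/
def PebblingMove (G : SimpleGraph V) (D D' : V → ℕ) : Prop :=
  ∃ u v : V, G.Adj u v ∧ 2 ≤ D u ∧
    D' u = D u - 2 ∧ D' v = D v + 1 ∧ ∀ w, w ≠ u → w ≠ v → D' w = D w

/-- The vertex `r` is reachable from the distribution `D`. -/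
def ReachableFrom (G : SimpleGraph V) (D : V → ℕ) (r : V) : Prop :=
  ∃ D' : V → ℕ, Relation.ReflTransGen (PebblingMove G) D D' ∧ 1 ≤ D' r

/-- The optimal pebbling number: the least size of a distribution from which every vertex is
reachable. -/
noncomputable def optimalPebblingNumber [Fintype V] (G : SimpleGraph V) : ℕ :=
  sInf {m | ∃ D : V → ℕ, ∑ v, D v = m ∧ ∀ r, ReachableFrom G D r}

/-! ### Pebbling along a walk -/

lemma moves_many (G : SimpleGraph V) {u v : V} (h : G.Adj u v) (n : ℕ) :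
    ∀ D : V → ℕ, 2 * n ≤ D u →
      ∃ D', Relation.ReflTransGen (PebblingMove G) D D' ∧ D v + n ≤ D' v := by
  classical
  have huv : u ≠ v := h.ne
  induction n with
  | zero => intro D _; exact ⟨D, Relation.ReflTransGen.refl, by simp⟩
  | succ m ihm =>
    intro D hD
    have hmove : PebblingMove G D
        (fun w => if w = u then D u - 2 else if w = v then D v + 1 else D w) := by
      refine ⟨u, v, h, by omega, by simp, by simp [huv.symm], ?_⟩
      intro w hwu hwv
      simp [hwu, hwv]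
    obtain ⟨D', hD', hv⟩ := ihm
      (fun w => if w = u then D u - 2 else if w = v then D v + 1 else D w)
      (by simp; omega)
    refine ⟨D', Relation.ReflTransGen.head hmove hD', ?_⟩
    simp only [huv.symm, if_false, if_true] at hv
    omega

lemma reach_of_walk (G : SimpleGraph V) {u r : V} (p : G.Walk u r) :
    ∀ D : V → ℕ, 2 ^ p.length ≤ D u → ReachableFrom G D r := by
  induction p with
  | nil => intro D hD; exact ⟨D, Relation.ReflTransGen.refl, by simpa using hD⟩
  | cons h p ih =>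
    intro D hD
    obtain ⟨D₁, h₁, h₂⟩ := moves_many G h (2 ^ p.length) D (by
      rw [SimpleGraph.Walk.length_cons, pow_succ] at hD
      omega)
    obtain ⟨D₂, h₃, h₄⟩ := ih D₁ (le_trans (Nat.le_add_left _ _) h₂)
    exact ⟨D₂, h₁.trans h₃, h₄⟩

lemma optimal_le (G : SimpleGraph V) [Fintype V] (d : ℕ) (u : V)
    (h : ∀ r, ∃ p : G.Walk u r, p.length ≤ d) : optimalPebblingNumber G ≤ 2 ^ d := by
  classical
  apply Nat.sInf_le
  refine ⟨fun w => if w = u then 2 ^ d else 0, by simp, fun r => ?_⟩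
  obtain ⟨p, hp⟩ := h r
  apply reach_of_walk G p
  simp only [if_true]
  exact Nat.pow_le_pow_right (by norm_num) hp

/-! ### Evading few cops on a graph of girth at least five -/

section Evade

variable (G : SimpleGraph V)

lemma safe_neighbour {k : ℕ}
    (hdeg : ∀ u, ∃ s : Finset V, k < s.card ∧ ∀ x ∈ s, G.Adj u x)
    (hC3 : ∀ u v w, G.Adj u v → G.Adj v w → ¬ G.Adj u w)
    (hC4 : ∀ u v x y, u ≠ v → G.Adj u x → G.Adj v x → G.Adj u y → G.Adj v y → x = y)
    (c : Fin k → V) (r : V) (hr : ∀ i, c i ≠ r) :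
    ∃ r', G.Adj r r' ∧ ∀ i, c i ≠ r' ∧ ¬ G.Adj (c i) r' := by
  classical
  by_contra hcon
  push Not at hcon
  obtain ⟨S, hS, hSadj⟩ := hdeg r
  -- every neighbour is blocked by a cop
  have hb : ∀ r' ∈ S, ∃ i, c i = r' ∨ G.Adj (c i) r' := by
    intro r' hr'
    obtain ⟨i, hi⟩ := hcon r' (hSadj r' hr')
    by_cases h : c i = r'
    · exact ⟨i, Or.inl h⟩
    · exact ⟨i, Or.inr (hi h)⟩
  have hk : Nonempty (Fin k) := by
    have h1 : 0 < S.card := lt_of_le_of_lt (Nat.zero_le k) hS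
    obtain ⟨x, hx⟩ := Finset.card_pos.1 h1
    obtain ⟨i, _⟩ := hb x hx
    exact ⟨i⟩
  choose! f hf using hb
  have hcard : (Finset.univ : Finset (Fin k)).card < S.card := by
    simpa using hS
  obtain ⟨x, hx, y, hy, hxy, hfxy⟩ :=
    Finset.exists_ne_map_eq_of_card_lt_of_maps_to hcard (f := f) (fun _ _ => Finset.mem_univ _)
  have hxr : G.Adj r x := hSadj x hx
  have hyr : G.Adj r y := hSadj y hy
  have h1 := hf x hx
  have h2 := hf y hy
  rw [← hfxy] at h2
  rcases h1 with h1 | h1 <;> rcases h2 with h2 | h2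
  · exact hxy (h1.symm.trans h2)
  · rw [h1] at h2
    exact hC3 r x y hxr h2 hyr
  · rw [h2] at h1
    exact hC3 r y x hyr h1 hxr
  · exact hxy (hC4 r (c (f x)) x y (hr _).symm hxr h1 hyr h2)

lemma evade {k : ℕ}
    (hdeg : ∀ u, ∃ s : Finset V, k < s.card ∧ ∀ x ∈ s, G.Adj u x)
    (hC3 : ∀ u v w, G.Adj u v → G.Adj v w → ¬ G.Adj u w)
    (hC4 : ∀ u v x y, u ≠ v → G.Adj u x → G.Adj v x → G.Adj u y → G.Adj v y → x = y)
    (m : ℕ) : ∀ (c : Fin k → V) (r : V), (∀ i, c i ≠ r ∧ ¬ G.Adj (c i) r) →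
      ¬ CopsCatchWithin G k m c r := by
  induction m with
  | zero =>
    intro c r hs h
    obtain ⟨i, hi⟩ := h
    exact (hs i).1 hi
  | succ m ih =>
    intro c r hs h
    rcases h with ⟨i, hi⟩ | ⟨c', hc', h⟩
    · exact (hs i).1 hi
    · have hne : ∀ i, c' i ≠ r := by
        intro i hi
        rcases hc' i with h' | h'
        · exact (hs i).1 (h'.trans hi)
        · rw [hi] at h'; exact (hs i).2 h'
      rcases h with ⟨i, hi⟩ | h
      · exact hne i hi
      · obtain ⟨r', hr', hs'⟩ := safe_neighbour G hdeg hC3 hC4 c' r hne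
        exact ih c' r' hs' (h r' (Or.inr hr'))

lemma lt_copNumber [Fintype V] [Nonempty V] {k : ℕ}
    (hdeg : ∀ u, ∃ s : Finset V, k < s.card ∧ ∀ x ∈ s, G.Adj u x)
    (hC3 : ∀ u v w, G.Adj u v → G.Adj v w → ¬ G.Adj u w)
    (hC4 : ∀ u v x y, u ≠ v → G.Adj u x → G.Adj v x → G.Adj u y → G.Adj v y → x = y) :
    k < copNumber G := by
  have hne : {k | CopsWin G k}.Nonempty := by
    refine ⟨Fintype.card V, (Fintype.equivFin V).symm, fun r => ⟨0, ?_⟩⟩
    exact ⟨Fintype.equivFin V r, by simp⟩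
  have hmem : CopsWin G (copNumber G) := Nat.sInf_mem hne
  by_contra hlt
  push Not at hlt
  obtain ⟨c, hc⟩ := hmem
  have hdeg' : ∀ u, ∃ s : Finset V, copNumber G < s.card ∧ ∀ x ∈ s, G.Adj u x := fun u => by
    obtain ⟨s, hs, hs'⟩ := hdeg u
    exact ⟨s, lt_of_le_of_lt hlt hs, hs'⟩
  -- an unoccupied vertex
  have hcardV : Fintype.card (Fin (copNumber G)) < Fintype.card V := by
    obtain ⟨v⟩ := ‹Nonempty V›
    obtain ⟨s, hs, hs'⟩ := hdeg' v
    rw [Fintype.card_fin]
    exact lt_of_lt_of_le hs (Finset.card_le_univ s)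
  obtain ⟨r₀, hr₀⟩ : ∃ r₀, ∀ i, c i ≠ r₀ := by
    by_contra hcon
    push Not at hcon
    exact absurd (Fintype.card_le_of_surjective c hcon) (not_le.2 hcardV)
  obtain ⟨r, _, hs⟩ := safe_neighbour G hdeg' hC3 hC4 c r₀ hr₀
  obtain ⟨m, hm⟩ := hc r
  exact evade G hdeg' hC3 hC4 m c r hs hm

end Evade

/-! ### The point-line graph -/

variable (p : ℕ)

/-- Adjacency of the point `(x, y)` and the line `(m, b)`: `y = m x + b`. -/
def PL : SimpleGraph ((ZMod p × ZMod p) ⊕ (ZMod p × ZMod p)) where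
  Adj a b := match a, b with
    | Sum.inl P, Sum.inr L => P.2 = L.1 * P.1 + L.2
    | Sum.inr L, Sum.inl P => P.2 = L.1 * P.1 + L.2
    | _, _ => False
  symm := ⟨by rintro (P | L) (Q | M) h <;> exact h⟩
  loopless := ⟨by rintro (P | L) h <;> exact h⟩

lemma PL_inl_inr (P L : ZMod p × ZMod p) :
    (PL p).Adj (Sum.inl P) (Sum.inr L) ↔ P.2 = L.1 * P.1 + L.2 := Iff.rfl

lemma PL_inr_inl (P L : ZMod p × ZMod p) :
    (PL p).Adj (Sum.inr L) (Sum.inl P) ↔ P.2 = L.1 * P.1 + L.2 := Iff.rfl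

lemma PL_inl_inl (P Q : ZMod p × ZMod p) : ¬ (PL p).Adj (Sum.inl P) (Sum.inl Q) :=
  fun h => h

lemma PL_inr_inr (P Q : ZMod p × ZMod p) : ¬ (PL p).Adj (Sum.inr P) (Sum.inr Q) :=
  fun h => h


lemma PL_C3 (u v w : (ZMod p × ZMod p) ⊕ (ZMod p × ZMod p)) (h : (PL p).Adj u v)
    (h' : (PL p).Adj v w) : ¬ (PL p).Adj u w := by
  rcases u with u | u <;> rcases v with v | v <;> rcases w with w | w <;>
    first
      | exact fun h'' => h''
      | exact absurd h id
      | exact absurd h' id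

variable [Fact p.Prime]

lemma PL_C4 (u v x y : (ZMod p × ZMod p) ⊕ (ZMod p × ZMod p)) (huv : u ≠ v)
    (h1 : (PL p).Adj u x) (h2 : (PL p).Adj v x) (h3 : (PL p).Adj u y) (h4 : (PL p).Adj v y) :
    x = y := by
  rcases u with ⟨u1, u2⟩ | ⟨u1, u2⟩ <;> rcases x with ⟨x1, x2⟩ | ⟨x1, x2⟩
  · exact absurd h1 id
  · rcases v with ⟨v1, v2⟩ | ⟨v1, v2⟩
    · rcases y with ⟨y1, y2⟩ | ⟨y1, y2⟩
      · exact absurd h3 id
      · change u2 = x1 * u1 + x2 at h1
        change v2 = x1 * v1 + x2 at h2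
        change u2 = y1 * u1 + y2 at h3
        change v2 = y1 * v1 + y2 at h4
        have h : (x1 - y1) * (u1 - v1) = 0 := by linear_combination -h1 + h2 + h3 - h4
        rcases mul_eq_zero.1 h with h | h
        · have hx : x1 = y1 := sub_eq_zero.1 h
          have : x2 = y2 := by rw [hx] at h1; linear_combination h3 - h1
          rw [hx, this]
        · exfalso
          have hx : u1 = v1 := sub_eq_zero.1 h
          apply huv
          rw [hx] at h1
          have : u2 = v2 := by rw [h1, h2]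
          rw [hx, this]
    · exact absurd h2 id
  · rcases v with ⟨v1, v2⟩ | ⟨v1, v2⟩
    · exact absurd h2 id
    · rcases y with ⟨y1, y2⟩ | ⟨y1, y2⟩
      · change x2 = u1 * x1 + u2 at h1
        change x2 = v1 * x1 + v2 at h2
        change y2 = u1 * y1 + u2 at h3
        change y2 = v1 * y1 + v2 at h4
        have h : (u1 - v1) * (x1 - y1) = 0 := by linear_combination -h1 + h2 + h3 - h4
        rcases mul_eq_zero.1 h with h | h
        · exfalso
          have hx : u1 = v1 := sub_eq_zero.1 h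
          apply huv
          have : u2 = v2 := by rw [hx] at h1; linear_combination h2 - h1
          rw [hx, this]
        · have hx : x1 = y1 := sub_eq_zero.1 h
          have : x2 = y2 := by rw [h1, h3, hx]
          rw [hx, this]
      · exact absurd h3 id
  · exact absurd h1 id

lemma PL_degree (u : (ZMod p × ZMod p) ⊕ (ZMod p × ZMod p)) :
    ∃ s : Finset ((ZMod p × ZMod p) ⊕ (ZMod p × ZMod p)), s.card = p ∧
      ∀ x ∈ s, (PL p).Adj u x := by
  classical
  rcases u with ⟨x, y⟩ | ⟨m, b⟩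
  · have hinj : Function.Injective (fun t : ZMod p =>
        (Sum.inr (t, y - t * x) : (ZMod p × ZMod p) ⊕ (ZMod p × ZMod p))) := by
      intro s t h
      simpa using (congrArg (fun z : (ZMod p × ZMod p) ⊕ (ZMod p × ZMod p) =>
        Sum.elim (fun q => q.1) (fun q => q.1) z) h)
    refine ⟨Finset.univ.image (fun t : ZMod p =>
        (Sum.inr (t, y - t * x) : (ZMod p × ZMod p) ⊕ (ZMod p × ZMod p))), ?_, ?_⟩
    · rw [Finset.card_image_of_injective _ hinj, Finset.card_univ, ZMod.card]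
    · intro z hz
      simp only [Finset.mem_image, Finset.mem_univ, true_and] at hz
      obtain ⟨t, rfl⟩ := hz
      rw [PL_inl_inr]
      ring
  · have hinj : Function.Injective (fun t : ZMod p =>
        (Sum.inl (t, m * t + b) : (ZMod p × ZMod p) ⊕ (ZMod p × ZMod p))) := by
      intro s t h
      simpa using (congrArg (fun z : (ZMod p × ZMod p) ⊕ (ZMod p × ZMod p) =>
        Sum.elim (fun q => q.1) (fun q => q.1) z) h)
    refine ⟨Finset.univ.image (fun t : ZMod p =>
        (Sum.inl (t, m * t + b) : (ZMod p × ZMod p) ⊕ (ZMod p × ZMod p))), ?_, ?_⟩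
    · rw [Finset.card_image_of_injective _ hinj, Finset.card_univ, ZMod.card]
    · intro z hz
      simp only [Finset.mem_image, Finset.mem_univ, true_and] at hz
      obtain ⟨t, rfl⟩ := hz
      rw [PL_inr_inl]

lemma PL_walk_line0 (m : ZMod p) : (PL p).Adj (Sum.inl (0, 0)) (Sum.inr (m, 0)) := by
  rw [PL_inl_inr]; simp

lemma PL_walk_point (x y : ZMod p) (hx : x ≠ 0) :
    ∃ w : (PL p).Walk (Sum.inl (0, 0)) (Sum.inl (x, y)), w.length = 2 := by
  have h : (PL p).Adj (Sum.inr (y / x, 0)) (Sum.inl (x, y)) := by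
    rw [PL_inr_inl]; field_simp; simp
  exact ⟨SimpleGraph.Walk.cons (PL_walk_line0 p (y / x)) (SimpleGraph.Walk.cons h
    SimpleGraph.Walk.nil), rfl⟩

lemma PL_walk_line (m b : ZMod p) :
    ∃ w : (PL p).Walk (Sum.inl (0, 0)) (Sum.inr (m, b)), w.length = 3 := by
  obtain ⟨w, hw⟩ := PL_walk_point p 1 (m + b) one_ne_zero
  have h : (PL p).Adj (Sum.inl (1, m + b)) (Sum.inr (m, b)) := by
    rw [PL_inl_inr]; simp
  exact ⟨w.concat h, by rw [SimpleGraph.Walk.length_concat, hw]⟩

lemma PL_walk (r : (ZMod p × ZMod p) ⊕ (ZMod p × ZMod p)) :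
    ∃ w : (PL p).Walk (Sum.inl (0, 0)) r, w.length ≤ 4 := by
  rcases r with ⟨x, y⟩ | ⟨m, b⟩
  · obtain ⟨w, hw⟩ := PL_walk_line p 0 y
    have h : (PL p).Adj (Sum.inr (0, y)) (Sum.inl (x, y)) := by
      rw [PL_inr_inl]; simp
    exact ⟨w.concat h, by rw [SimpleGraph.Walk.length_concat, hw]⟩
  · obtain ⟨w, hw⟩ := PL_walk_line p m b
    exact ⟨w, by omega⟩

/-- For every `k` there is a connected finite graph whose optimal pebbling number is at most `16`
while its cop number exceeds the optimal pebbling number by more than `k`. -/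
theorem result : ∀ k : ℕ, ∃ (V : Type) (_ : Fintype V) (G : SimpleGraph V),
    G.Connected ∧ optimalPebblingNumber G ≤ 16 ∧ optimalPebblingNumber G + k < copNumber G := by
  classical
  intro k
  obtain ⟨p, hp, hprime⟩ := Nat.exists_infinite_primes (k + 17)
  have : Fact p.Prime := ⟨hprime⟩
  have hopt : optimalPebblingNumber (PL p) ≤ 2 ^ 4 :=
    optimal_le (PL p) 4 (Sum.inl (0, 0)) (PL_walk p)
  have hcop : k + 16 < copNumber (PL p) := by
    apply lt_copNumber (PL p) (fun u => ?_) (PL_C3 p) (PL_C4 p)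
    obtain ⟨s, hs, hs'⟩ := PL_degree p u
    exact ⟨s, by omega, hs'⟩
  refine ⟨(ZMod p × ZMod p) ⊕ (ZMod p × ZMod p), inferInstance, PL p, ?_, by simpa using hopt,
    by norm_num at hopt; omega⟩
  rw [SimpleGraph.connected_iff_exists_forall_reachable]
  exact ⟨Sum.inl (0, 0), fun r => ⟨(PL_walk p r).choose⟩⟩

end Pool.Agent.Results.MP_64c30f_co.CopAbovePebbling
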